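import Mathlib
import Pool.Agent.J4H16.UD.Defs

/-! Project UD (helper16): job ATTC. -/

set_option autoImplicit false
open Set Filter Topology Metric Complex MeasureTheory

namespace Pool.Agent.J4H56.UD

open Pool.Agent.J4H16 Pool.Agent.J4H16.AS Pool.Agent.J4H16.UD Pool.Agent.W746.LD

/-- The derivative of the branch of a lift. -/
theorem lf_deriv {n : ℕ} {c : ℂ} {i : ℕ} {φ h : ℂ → ℂ} (hφ : Univ φ 0 1) (hh : Lf n c i φ h)
    {v : ℂ} (hv : v ∈ ball (0 : ℂ) 1) :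
    deriv (fun w => h (Function.invFunOn φ (ball 0 1) w)) (φ v) = deriv h v * (deriv φ v)⁻¹ := by
  have h1 := Pool.Agent.Helper202.Univ.hasDerivAt_inv isOpen_ball hφ.1 hφ.2 hv
  have h2 : Function.invFunOn φ (ball 0 1) (φ v) = v :=
    Pool.Agent.Helper202.Univ.invFunOn_left hφ.2 hv
  have h3 : HasDerivAt h (deriv h v) (Function.invFunOn φ (ball 0 1) (φ v)) := by
    rw [h2]
    exact (hh.diff.differentiableAt (isOpen_ball.mem_nhds hv)).hasDerivAt
  exact (h3.comp (φ v) h1).deriv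

theorem deriv_le_of {φ : ℂ → ℂ} {B ε : ℝ} {v : ℂ} (hφ : DifferentiableOn ℂ φ (ball 0 1))
    (hε : 0 < ε) (hv : ‖v‖ ≤ 1 - ε) (hB : φ '' ball 0 1 ⊆ ball 0 B) :
    ‖deriv φ v‖ ≤ 2 * B / ε := by
  have hsub : ball v ε ⊆ ball 0 1 := by
    intro u hu
    rw [mem_ball, dist_eq_norm] at hu
    rw [mem_ball, dist_zero_right]
    have := norm_add_le (u - v) v
    rw [sub_add_cancel] at this
    linarith
  have hmaps : MapsTo φ (ball v ε) (closedBall (φ v) (2 * B)) := by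
    intro u hu
    have h1 := hB (mem_image_of_mem φ (hsub hu))
    have h2 := hB (mem_image_of_mem φ (hsub (mem_ball_self hε)))
    rw [mem_ball, dist_zero_right] at h1 h2
    rw [mem_closedBall, dist_eq_norm]
    have := norm_sub_le (φ u) (φ v)
    linarith
  exact Complex.norm_deriv_le_div_of_mapsTo_ball (hφ.mono hsub) hmaps hε

theorem t_ATTC : S_ATTC := by
  intro n c r h C1 ε1 hC1 hε1 hε11
  have hn := h.hn
  obtain ⟨C0, c0, Kc⟩ := exists_KC
  have hc0 := Kc.pos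
  have hC0 := Kc.one_le
  obtain ⟨k, hk⟩ := exists_rad (show 1 - ε1 < 1 by linarith)
  set E : ℝ := c0 * ε1 / (128 * C1 * C0 ^ (2 * k)) with hE
  have hE0 : 0 < E := by positivity
  refine ⟨min (1 / 4) E, lt_min (by norm_num) hE0, ?_⟩
  intro s i φ hh y v hs hφ hφ0 hin hout hlf hy hv hvc hyn
  set ε' : ℝ := min (1 / 4) E with hε'
  have hε'0 : 0 < ε' := lt_min (by norm_num) hE0
  have hε'1 : ε' ≤ 1 / 4 := min_le_left _ _
  have hε'2 : ε' ≤ E := min_le_right _ _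
  by_contra hcon
  push Not at hcon
  have hpow : (0 : ℝ) < (3 / 4) ^ k := by positivity
  have h1 := KC.rad_lip2 Kc one_pos (hlf.univ hφ) k (s := 1 - ε1) (by linarith)
    (by simpa using hy) (by simpa using hv)
  rw [hvc] at h1
  set D : ℝ := ‖deriv hh v‖ with hD
  have hv1 : v ∈ ball (0 : ℂ) 1 := by
    rw [mem_ball, dist_zero_right]
    linarith
  have hD00 : deriv hh v ≠ 0 :=
    Pool.Agent.Helper202.Univ.deriv_ne_zero isOpen_ball hlf.diff (hlf.injOn hφ) hv1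
  have hD0 : 0 < D := norm_pos_iff.mpr hD00
  have h2 : s ^ n ≤ 2 * C0 ^ (2 * k) * D := by
    refine (hyn.trans h1).trans ?_
    have : 1 - ε1 ≤ 1 := by linarith
    calc 2 * (1 - ε1) * C0 ^ (2 * k) * D ≤ 2 * 1 * C0 ^ (2 * k) * D := by gcongr
      _ = 2 * C0 ^ (2 * k) * D := by ring
  -- the branch
  have hsub : ball (φ v) (s / 2) ⊆ φ '' ball 0 1 := by
    refine Subset.trans ?_ hin
    intro u hu
    rw [mem_ball, dist_eq_norm] at hu
    rw [mem_ball, dist_zero_right]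
    have := norm_add_le (u - φ v) (φ v)
    rw [sub_add_cancel] at this
    nlinarith
  have hbr := hlf.br hφ hsub
  set g : ℂ → ℂ := fun w => hh (Function.invFunOn φ (ball 0 1) w) with hg
  have hgv : g (φ v) = c := by
    show hh (Function.invFunOn φ (ball 0 1) (φ v)) = c
    rw [Pool.Agent.Helper202.Univ.invFunOn_left hφ.2 hv1, hvc]
  have hgd : deriv g (φ v) = deriv hh v * (deriv φ v)⁻¹ := lf_deriv hφ hlf hv1
  have hφd : ‖deriv φ v‖ ≤ 2 * (C1 * s) / ε1 := deriv_le_of hφ.1 hε1 hv hout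
  have hφd0 : 0 < ‖deriv φ v‖ := norm_pos_iff.mpr
    (Pool.Agent.Helper202.Univ.deriv_ne_zero isOpen_ball hφ.1 hφ.2 hv1)
  have hDD : D ≤ ‖deriv g (φ v)‖ * (2 * (C1 * s) / ε1) := by
    rw [hgd, norm_mul, norm_inv, ← hD]
    calc D = D * ‖deriv φ v‖⁻¹ * ‖deriv φ v‖ := by field_simp
      _ ≤ D * ‖deriv φ v‖⁻¹ * (2 * (C1 * s) / ε1) := by gcongr
  set G : ℝ := ‖deriv g (φ v)‖ with hG
  have hG0 : 0 < G := by
    rw [hG, hgd, norm_mul, norm_inv]
    positivity
  set τ : ℝ := 2 * ε' * s with hτ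
  have hτ0 : 0 < τ := by positivity
  have hτs : τ ≤ s / 2 := by
    rw [hτ]
    nlinarith
  have hvτ : ‖φ v‖ < τ / 2 := by
    rw [hτ]
    linarith
  have hd0 : 0 < τ - ‖φ v‖ := by linarith
  have hkey : 4 * τ ^ n < c0 * (τ - ‖φ v‖) * G := by
    have h3 : (2 * ε') ^ n ≤ (2 * ε') ^ 2 :=
      pow_le_pow_of_le_one (by positivity) (by linarith) hn
    have h4 : 4 * τ ^ n ≤ 16 * ε' ^ 2 * s ^ n := by
      rw [hτ, mul_pow]
      calc 4 * ((2 * ε') ^ n * s ^ n) ≤ 4 * ((2 * ε') ^ 2 * s ^ n) := by gcongr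
        _ = 16 * ε' ^ 2 * s ^ n := by ring
    have h5 : 16 * ε' ^ 2 * s ^ n ≤
        16 * ε' ^ 2 * (2 * C0 ^ (2 * k) * (G * (2 * (C1 * s) / ε1))) := by
      refine mul_le_mul_of_nonneg_left (h2.trans ?_) (by positivity)
      gcongr
    have h6 : ε' * (128 * C1 * C0 ^ (2 * k)) ≤ c0 * ε1 := by
      rw [hE] at hε'2
      rwa [le_div_iff₀ (by positivity)] at hε'2
    have h7 : 16 * ε' ^ 2 * (2 * C0 ^ (2 * k) * (G * (2 * (C1 * s) / ε1)))
        = (ε' * (128 * C1 * C0 ^ (2 * k))) * (ε' * s * G / ε1) / 2 := by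
      field_simp
      ring
    have h8 : (ε' * (128 * C1 * C0 ^ (2 * k))) * (ε' * s * G / ε1) ≤
        c0 * ε1 * (ε' * s * G / ε1) := by gcongr
    have h9 : c0 * ε1 * (ε' * s * G / ε1) = c0 * (τ / 2) * G := by
      rw [hτ]
      field_simp
    have h10 : c0 * (τ / 2) * G ≤ c0 * (τ - ‖φ v‖) * G := by
      have : τ / 2 ≤ τ - ‖φ v‖ := by linarith
      gcongr
    have h11 : 0 < c0 * (τ - ‖φ v‖) * G := by positivity
    linarith
  obtain ⟨z, hz⟩ := attr_per (n := n) (c := c) (N := i + 1) (by omega) (s := 4 * τ ^ n)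
    (by positivity) (by
      intro x hx
      have hsub' : ball (φ v) (τ - ‖φ v‖) ⊆ ball (φ v) (s / 2) :=
        ball_subset_ball (by have := norm_nonneg (φ v); linarith)
      obtain ⟨h3, -⟩ := hbr.cover Kc hd0 hsub' (a := x) (by
        show ‖x - g (φ v)‖ < c0 * (τ - ‖φ v‖) * ‖deriv g (φ v)‖
        rw [hgv]; linarith)
      rw [mem_ball, dist_eq_norm] at h3
      rw [norm_orb_succ_sub]
      have h4 : ‖orb n c x i‖ ≤ τ := by
        have := norm_add_le (orb n c x i - φ v) (φ v)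
        rw [sub_add_cancel] at this
        linarith
      calc ‖orb n c x i‖ ^ n ≤ τ ^ n := by gcongr
        _ = 4 * τ ^ n / 4 := by ring)
  exact h.na c (mem_ball_self h.hr) ⟨_, _, hz⟩

end Pool.Agent.J4H56.UD
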