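import Mathlib
import Pool.Agent.J4H8.UD.Basic

/-! Project UD (helper16): job NCZC. -/

set_option autoImplicit false
open Set Filter Topology Metric Complex MeasureTheory

namespace Pool.Agent.J4H56.UD

open Pool.Agent.J4H16 Pool.Agent.J4H16.AS Pool.Agent.J4H16.UD Pool.Agent.W746.LD

theorem t_NCZC : S_NCZC := by
  intro n c r ν A x ε R1 h hd hI hx hε hε1 hR1 hU
  have hn := h.hn
  obtain ⟨C0, c0, Kc⟩ := exists_KC
  have hc0 := Kc.pos
  have hc4 := Kc.le
  have hC0 := Kc.one_le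
  have hνx : 0 < ‖ν x‖ := norm_pos_iff.mpr hx.ne
  have hn0 : (0 : ℝ) < n := by exact_mod_cast (by omega : 0 < n)
  obtain ⟨m, hm⟩ := exists_rad (show 1 - ε < 1 by linarith)
  have hCm : 1 ≤ C0 ^ m := one_le_pow₀ hC0
  -- the constants
  set θ' : ℝ := min 1 (c0 ^ 2 / (4 * n * C0 ^ 2)) with hθ'
  have hθ'0 : 0 < θ' := lt_min one_pos (by positivity)
  have hθ'1 : θ' ≤ 1 := min_le_left _ _
  have hθ'2 : θ' * (4 * n * C0 ^ 2) ≤ c0 ^ 2 := by
    have : θ' ≤ c0 ^ 2 / (4 * n * C0 ^ 2) := min_le_right _ _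
    rwa [le_div_iff₀ (by positivity)] at this
  set e1 : ℝ := c0 * ε / C0 ^ m with he1
  have he10 : 0 < e1 := by positivity
  have he11 : e1 ≤ 1 := by
    rw [he1, div_le_one (by positivity)]
    have : c0 * ε ≤ 1 * 1 := by gcongr; linarith
    linarith
  set κ : ℝ := θ' * e1 / (64 * (C0 + 2)) with hκ
  have hκ0 : 0 < κ := by positivity
  set θ : ℝ := min (θ' * κ ^ 2 * ε ^ 2) (1 / (n ^ 2)) with hθ
  have hθ0 : 0 < θ := lt_min (by positivity) (by positivity)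
  have hθ1 : θ ≤ θ' * κ ^ 2 * ε ^ 2 := min_le_left _ _
  have hθ2 : n ^ 2 * θ ≤ 1 := by
    have : θ ≤ 1 / (n ^ 2) := min_le_right _ _
    rw [le_div_iff₀ (by positivity)] at this
    linarith
  refine ⟨θ, hθ0, fun S0 hS0 => ?_⟩
  by_contra hcon
  push Not at hcon
  obtain ⟨d, hd1, hd2⟩ := h.branch_small hd Kc (ε := S0 ^ n / (c0 * 2)) (by positivity)
  -- the scale
  set R : ℝ := min (min (S0 * ε) d) R1 with hR
  have hR0 : 0 < R := lt_min (lt_min (by positivity) hd1) hR1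
  have hRR1 : R ≤ R1 := min_le_right _ _
  have hRS : R ≤ S0 * ε := (min_le_left _ _).trans (min_le_left _ _)
  have hRd : R ≤ d := (min_le_left _ _).trans (min_le_right _ _)
  obtain ⟨φ, hφ, hφ0, hin, hout, hcol⟩ := hU 0 R hR0 hRR1
  set R' : ℝ := R / ε with hR'
  have hR'0 : 0 < R' := by positivity
  obtain ⟨N, hN⟩ := hx.conical h hd Kc hI (half_pos hR0)
  obtain ⟨k, hkN, hk⟩ : ∃ k ≥ N, ‖orb n c x k‖ < R / 2 := by
    have key : ∀ (M : ℕ) (δ : ℝ), 0 < δ → ∃ k ≥ M, ‖orb n c x k‖ < δ := by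
      intro M
      induction M with
      | zero =>
        intro δ hδ
        obtain ⟨k, hk⟩ := Pool.Agent.J4H8.UD.t_ZACC n c r ν A x ε R1 h hd hI hx hε hε1 hR1 hU δ hδ
        exact ⟨k, Nat.zero_le k, hk⟩
      | succ M ih =>
        intro δ hδ
        have h1 : 0 < ‖orb n c x M‖ := norm_pos_iff.mpr (hx.orb_ne M)
        obtain ⟨k, hk1, hk2⟩ := ih _ (lt_min hδ h1)
        refine ⟨k, ?_, hk2.trans_le (min_le_left _ _)⟩
        have h2 := hk2.trans_le (min_le_right _ _)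
        rcases Nat.lt_or_ge M k with h3 | h3
        · exact h3
        · exfalso
          have : k = M := by omega
          rw [this] at h2
          exact lt_irrefl _ h2
    exact key N (R / 2) (half_pos hR0)
  -- the point in the disc
  obtain ⟨ζ0, hζ0b, hζ0n, hζ0⟩ := Pool.Agent.J4H8.UD.inv_small hφ hφ0 hR0 hin
    (u := orb n c x k) (by rw [mem_ball, dist_zero_right]; linarith)
  have hsub : ball (orb n c x k) (R / 2) ⊆ φ '' ball 0 1 := by
    refine Subset.trans ?_ hin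
    intro z hz
    rw [mem_ball, dist_eq_norm] at hz
    rw [mem_ball, dist_zero_right]
    have := norm_add_le (z - orb n c x k) (orb n c x k)
    rw [sub_add_cancel] at this
    linarith
  have hnot : ¬ ∀ j < k, ∀ h, Lf n c j φ h → h ζ0 = orb n c x (k - j) →
      ∀ w ∈ ball (0 : ℂ) 1, h w ≠ c := by
    intro hall
    obtain ⟨G, hh, hh0⟩ := exists_lf hn hφ hζ0b hζ0 hall
    refine hN k hkN _ (hh.br hφ hsub) ?_
    show G (Function.invFunOn φ (ball 0 1) (orb n c x k)) = x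
    rw [← hζ0, Pool.Agent.Helper202.Univ.invFunOn_left hφ.2 hζ0b, hh0]
  push Not at hnot
  obtain ⟨i, hi, f, hf, hf0, v, hv, hfv⟩ := hnot
  have hvθ : ‖v‖ ≤ 1 - ε := by
    by_contra hgt
    push Not at hgt
    rw [mem_ball, dist_zero_right] at hv
    exact hcol v hgt hv (Pool.Agent.J4H8.UD.lf_crit hn hf (by rwa [mem_ball, dist_zero_right]) hfv)
  have hvε : ball v ε ⊆ ball 0 1 := by
    intro u hu
    rw [mem_ball, dist_eq_norm] at hu
    rw [mem_ball, dist_zero_right]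
    have := norm_add_le (u - v) v
    rw [sub_add_cancel] at this
    linarith
  have hdv : R ≤ C0 ^ m * ‖deriv φ v‖ :=
    (Pool.Agent.J4H8.UD.deriv_ge hφ hφ0 hR0 hin).trans
      (KC.rad Kc one_pos hφ m v (by rw [mul_one]; linarith)).2
  have hsubv : ball (φ v) (e1 * R) ⊆ φ '' ball 0 1 := by
    refine Subset.trans (ball_subset_ball ?_) (KC.ball_sub Kc hφ hε hvε)
    rw [he1]
    calc c0 * ε / C0 ^ m * R ≤ c0 * ε / C0 ^ m * (C0 ^ m * ‖deriv φ v‖) := by gcongr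
      _ = c0 * ε * ‖deriv φ v‖ := by field_simp
  set p : ℂ := φ v with hp
  set g : ℂ → ℂ := fun w => f (Function.invFunOn φ (ball 0 1) w) with hg
  have hbr : Br n c i p (e1 * R) g := hf.br hφ hsubv
  have hgv : g p = c := by
    show f (Function.invFunOn φ (ball 0 1) (φ v)) = c
    rw [Pool.Agent.Helper202.Univ.invFunOn_left hφ.2 hv, hfv]
  have hεR : 0 < e1 * R := by positivity
  set σ : ℝ := κ * R with hσ
  have hσ0 : 0 < σ := by positivity
  have hσ1 : 64 * (C0 + 2) * σ ≤ θ' * (e1 * R) := by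
    rw [hσ, hκ]
    apply le_of_eq
    field_simp
  have hσ2 : 4 * σ < e1 * R := by
    have h1 : 0 < C0 * σ := by positivity
    have h2 : θ' * (e1 * R) ≤ 1 * (e1 * R) := by gcongr
    have h3 : 64 * (C0 + 2) * σ = 64 * (C0 * σ) + 128 * σ := by ring
    linarith
  -- near constancy at the scale `R'`
  have hR'S : R' ≤ S0 := by
    rw [hR', div_le_iff₀ hε]
    exact hRS
  obtain ⟨l1, hl1, hl1'⟩ : NCz ν x θ R' := hcon R' hR'0 hR'S
  have hσR' : ball p σ ⊆ ball 0 R' :=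
    ((ball_subset_ball (by linarith)).trans hsubv).trans hout
  have hv1 : ∫ w in ball p σ, ‖ν w - l1‖ ≤ θ' * ‖l1‖ * σ ^ 2 := by
    calc ∫ w in ball p σ, ‖ν w - l1‖ ≤ ∫ w in ball 0 R', ‖ν w - l1‖ :=
          setIntegral_mono_set (hI.intOn _ (vol_ball_ne _ _))
            (Eventually.of_forall fun z => norm_nonneg _) (LE.le.eventuallyLE hσR')
      _ ≤ θ * ‖ν x‖ * R' ^ 2 := hl1'
      _ ≤ θ' * κ ^ 2 * ε ^ 2 * ‖ν x‖ * R' ^ 2 := by gcongr
      _ = θ' * ‖l1‖ * σ ^ 2 := by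
        rw [hl1, hσ, hR']
        field_simp
  set D : ℝ := ‖deriv g p‖ with hD
  have hD0 : 0 < D := norm_pos_iff.mpr (hbr.deriv_ne (mem_ball_self hεR))
  obtain ⟨T, hT, hTn⟩ := exists_root hn (y := c0 * σ * D) (by positivity)
  have hcover : ball c (T ^ n) ⊆ g '' ball p σ := by
    intro y hy
    rw [mem_ball, dist_eq_norm] at hy
    obtain ⟨h1, h2⟩ := hbr.cover Kc (z := p) (s := σ) hσ0 (ball_subset_ball (by linarith))
      (a := y) (by rw [hgv, ← hD, ← hTn]; exact hy)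
    exact ⟨_, h1, h2⟩
  obtain ⟨l', hl2, hl2'⟩ := hI.transport hn Kc hθ'0 hσ0 hσ2 hσ1 hbr (l := l1) hv1 hcover
  -- the scale `T`
  have hTS : T ≤ S0 := by
    apply le_of_pow_le_pow_left₀ (by omega : n ≠ 0) hS0.le
    rw [hTn]
    have hσd : σ ≤ d := by
      have h1 : e1 * R ≤ 1 * R := by gcongr
      linarith
    have h2 := hd2 i p σ g hσ0 hσd (hbr.mono (ball_subset_ball (by linarith)))
      (by rw [hgv]; exact h.c_mem)
    calc c0 * σ * D = c0 * (σ * D) := by ring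
      _ ≤ c0 * (S0 ^ n / (c0 * 2)) := by gcongr
      _ = S0 ^ n / 2 := by field_simp
      _ ≤ S0 ^ n := by
        have : 0 < S0 ^ n := by positivity
        linarith
  obtain ⟨l2, hl3, hl3'⟩ : NCz ν x θ T := hcon T hT hTS
  have hfin := hI.final hn hT (l1 := l') (l2 := l2) (α := 2 * θ' * ‖ν x‖ * C0 ^ 2 / c0 ^ 2)
    (β := θ * ‖ν x‖) (by
      refine hl2'.trans (le_of_eq ?_)
      rw [hl1, hTn, ← hD]
      field_simp) hl3'
  rw [hl2, hl1] at hfin
  have h1 : n * (2 * θ' * ‖ν x‖ * C0 ^ 2 / c0 ^ 2) ≤ ‖ν x‖ := by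
    have e : n * (2 * θ' * ‖ν x‖ * C0 ^ 2 / c0 ^ 2)
        = ‖ν x‖ * (θ' * (4 * n * C0 ^ 2)) / (2 * c0 ^ 2) := by
      field_simp
      ring
    rw [e, div_le_iff₀ (by positivity)]
    have : ‖ν x‖ * (θ' * (4 * n * C0 ^ 2)) ≤ ‖ν x‖ * c0 ^ 2 := by gcongr
    have : 0 < ‖ν x‖ * c0 ^ 2 := by positivity
    linarith
  have h2 : n ^ 2 * (θ * ‖ν x‖) ≤ ‖ν x‖ := by
    calc n ^ 2 * (θ * ‖ν x‖) = n ^ 2 * θ * ‖ν x‖ := by ring
      _ ≤ 1 * ‖ν x‖ := by gcongr
      _ = ‖ν x‖ := one_mul _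
  have h3 := Real.pi_gt_three
  nlinarith

end Pool.Agent.J4H56.UD
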